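import Pool.Agent.U753.MX.Stm
import Pool.Agent.N776.TP.GT

/-!
# Project MX, package VA (helper962): first-order variation of `log Tr exp (-K)`
-/

set_option autoImplicit false

open scoped BigOperators Matrix ComplexOrder
open scoped Matrix.Norms.L2Operator

namespace Pool.Agent.U962.MX

open Pool.Agent.U753.MX

variable {n : Type} [Fintype n] [DecidableEq n]

/-- Diagonalisation, with a bound for the eigenvalues. -/
theorem diag_form (A : Matrix n n ℂ) (hA : A.IsHermitian) :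
    ∃ (U : Matrix n n ℂ) (l : n → ℝ), U * Uᴴ = 1 ∧ Uᴴ * U = 1 ∧
      A = U * Matrix.diagonal (fun i => (l i : ℂ)) * Uᴴ ∧ ∀ i, |l i| ≤ ‖A‖ := by
  refine ⟨(hA.eigenvectorUnitary : Matrix n n ℂ), hA.eigenvalues, ?_, ?_, ?_, ?_⟩
  · exact Unitary.mul_star_self_of_mem hA.eigenvectorUnitary.2
  · exact Unitary.star_mul_self_of_mem hA.eigenvectorUnitary.2
  · have h := hA.spectral_theorem
    rw [Unitary.conjStarAlgAut_apply] at h
    exact h
  · intro i
    have h1 := hA.mulVec_eigenvectorBasis i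
    have h2 := Matrix.l2_opNorm_mulVec A (hA.eigenvectorBasis i)
    have h3 : ‖hA.eigenvectorBasis i‖ = 1 := hA.eigenvectorBasis.orthonormal.1 i
    rw [h3, mul_one] at h2
    have h4 : (EuclideanSpace.equiv n ℂ).symm (A *ᵥ (hA.eigenvectorBasis i)) =
        (hA.eigenvalues i : ℂ) • hA.eigenvectorBasis i := by
      ext j
      have := congrFun h1 j
      simpa using this
    have h5 : ‖(hA.eigenvalues i : ℂ) • hA.eigenvectorBasis i‖ ≤ ‖A‖ := by
      rw [← h4]
      exact h2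
    rw [norm_smul, h3, mul_one] at h5
    simpa using h5

theorem exp_form (U : Matrix n n ℂ) (l : n → ℝ) (h1 : U * Uᴴ = 1) (h2 : Uᴴ * U = 1) :
    NormedSpace.exp (-(U * Matrix.diagonal (fun i => (l i : ℂ)) * Uᴴ)) =
      U * Matrix.diagonal (fun i => ((Real.exp (-l i) : ℝ) : ℂ)) * Uᴴ := by
  have hinv : U⁻¹ = Uᴴ := Matrix.inv_eq_right_inv h1
  have hU : IsUnit U := ⟨⟨U, Uᴴ, h1, h2⟩, rfl⟩
  have e1 : -(U * Matrix.diagonal (fun i => (l i : ℂ)) * Uᴴ) =
      U * Matrix.diagonal (fun i => ((-l i : ℝ) : ℂ)) * U⁻¹ := by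
    rw [hinv, ← Matrix.neg_mul, ← Matrix.mul_neg, Matrix.diagonal_neg]
    congr 3
    ext i
    simp
  rw [e1, Matrix.exp_conj _ _ hU, Matrix.exp_diagonal, hinv]
  congr 3
  ext i
  rw [Pi.coe_exp]
  rw [← Complex.exp_eq_exp_ℂ]
  simp

theorem trace_nonneg_mul (U M : Matrix n n ℂ) (w : n → ℝ) (hw : ∀ i, 0 ≤ w i)
    (hM : M.PosSemidef) :
    0 ≤ (U * Matrix.diagonal (fun i => (w i : ℂ)) * Uᴴ * M).trace.re := by
  have hP : (Uᴴ * M * U).PosSemidef := hM.conjTranspose_mul_mul_same U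
  have h : (U * Matrix.diagonal (fun i => (w i : ℂ)) * Uᴴ * M).trace =
      (Matrix.diagonal (fun i => (w i : ℂ)) * (Uᴴ * M * U)).trace := by
    rw [Matrix.mul_assoc, Matrix.mul_assoc, Matrix.trace_mul_comm U]
    simp only [Matrix.mul_assoc]
  rw [h, Matrix.trace]
  simp only [Matrix.diag_apply, Matrix.diagonal_mul]
  rw [Complex.re_sum]
  apply Finset.sum_nonneg
  intro i _
  rw [Complex.re_ofReal_mul]
  exact mul_nonneg (hw i) (Complex.le_def.mp (hP.diag_nonneg (i := i))).1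

theorem exp_le (w b : ℝ) (hw : |w| ≤ b) (hb : b ≤ 1) : 0 ≤ 1 - w + b ^ 2 - Real.exp (-w) := by
  have h1 : |(-w)| ≤ 1 := by rw [abs_neg]; exact hw.trans hb
  have h2 := Real.abs_exp_sub_one_sub_id_le h1
  have h3 := (abs_le.mp h2).2
  have h4 : w ^ 2 ≤ b ^ 2 := sq_le_sq' (by linarith [(abs_le.mp hw).1]) (abs_le.mp hw).2
  nlinarith [h3, h4, neg_sq w]

theorem part_form {U : Matrix n n ℂ} {l : n → ℝ} (h1 : U * Uᴴ = 1) (h2 : Uᴴ * U = 1)
    {K : Matrix n n ℂ} (hK : K = U * Matrix.diagonal (fun i => (l i : ℂ)) * Uᴴ) :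
    part K = ∑ i, Real.exp (-l i) := by
  rw [hK, part, exp_form U l h1 h2, Matrix.trace_mul_comm, ← Matrix.mul_assoc, h2, Matrix.one_mul,
    Matrix.trace_diagonal, Complex.re_sum]
  exact Finset.sum_congr rfl fun i _ => Complex.ofReal_re _

theorem part_pos [Nonempty n] {K : Matrix n n ℂ} (hK : K.IsHermitian) : 0 < part K := by
  obtain ⟨U, l, h1, h2, h3, -⟩ := diag_form K hK
  rw [part_form h1 h2 h3]
  exact Finset.sum_pos (fun i _ => Real.exp_pos _) Finset.univ_nonempty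

theorem exp_psd (W : Matrix n n ℂ) (hW : W.IsHermitian) (h1 : ‖W‖ ≤ 1) :
    (1 - W + ((‖W‖ ^ 2 : ℝ) : ℂ) • (1 : Matrix n n ℂ) - NormedSpace.exp (-W)).PosSemidef := by
  obtain ⟨U, l, hU1, hU2, hl, hb⟩ := diag_form W hW
  have e : 1 - W + ((‖W‖ ^ 2 : ℝ) : ℂ) • (1 : Matrix n n ℂ) - NormedSpace.exp (-W) =
      U * Matrix.diagonal (fun i => ((1 - l i + ‖W‖ ^ 2 - Real.exp (-l i) : ℝ) : ℂ)) * Uᴴ := by
    have e1 : Matrix.diagonal (fun i => ((1 - l i + ‖W‖ ^ 2 - Real.exp (-l i) : ℝ) : ℂ)) =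
        (1 : Matrix n n ℂ) - Matrix.diagonal (fun i => (l i : ℂ)) +
          ((‖W‖ ^ 2 : ℝ) : ℂ) • (1 : Matrix n n ℂ) -
          Matrix.diagonal (fun i => ((Real.exp (-l i) : ℝ) : ℂ)) := by
      ext i j
      by_cases hij : i = j
      · subst hij
        simp
      · simp [Matrix.diagonal_apply_ne _ hij, Matrix.one_apply_ne hij]
    rw [e1, Matrix.mul_sub, Matrix.mul_add, Matrix.mul_sub, Matrix.sub_mul, Matrix.add_mul,
      Matrix.sub_mul, Matrix.mul_one, hU1, Matrix.mul_smul, Matrix.mul_one, Matrix.smul_mul, hU1,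
      ← hl, ← exp_form U l hU1 hU2, ← hl]
  rw [e]
  refine Matrix.PosSemidef.mul_mul_conjTranspose_same ?_ U
  apply Matrix.PosSemidef.diagonal
  intro i
  have h := exp_le (l i) ‖W‖ (hb i) h1
  change (0 : ℂ) ≤ ((1 - l i + ‖W‖ ^ 2 - Real.exp (-l i) : ℝ) : ℂ)
  exact_mod_cast h

theorem t_va_of (hGT : ∀ (n : Type) [Fintype n] [DecidableEq n] (X Y : Matrix n n ℂ),
    X.IsHermitian → Y.IsHermitian →
    (NormedSpace.exp (X + Y)).trace.re ≤ (NormedSpace.exp X * NormedSpace.exp Y).trace.re) :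
    StmVA := by
  intro n _ _ _ K V hK hV t ht htV
  have htn : ‖(t : ℂ) • V‖ = t * ‖V‖ := by
    rw [norm_smul, Complex.norm_real, Real.norm_of_nonneg ht]
  have hW : ((t : ℂ) • V).IsHermitian := by
    rw [Matrix.IsHermitian, Matrix.conjTranspose_smul, hV]
    simp
  have hKV : (K + (t : ℂ) • V).IsHermitian := hK.add hW
  have hKp := part_pos hK
  have hKVp := part_pos hKV
  obtain ⟨U, l, hU1, hU2, hl, -⟩ := diag_form K hK
  have hgt := hGT n (-K) (-((t : ℂ) • V)) hK.neg hW.neg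
  rw [← neg_add] at hgt
  have hps := exp_psd ((t : ℂ) • V) hW (by rw [htn]; exact htV)
  have htr := trace_nonneg_mul U _ (fun i => Real.exp (-l i)) (fun i => (Real.exp_pos _).le) hps
  rw [← exp_form U l hU1 hU2, ← hl, Matrix.mul_sub, Matrix.mul_add, Matrix.mul_sub, Matrix.mul_one,
    Matrix.trace_sub, Matrix.trace_add, Matrix.trace_sub, Matrix.mul_smul, Matrix.mul_smul,
    Matrix.mul_one, Matrix.trace_smul, Matrix.trace_smul, htn, smul_eq_mul, smul_eq_mul,
    Complex.sub_re, Complex.add_re, Complex.sub_re, Complex.re_ofReal_mul,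
    Complex.re_ofReal_mul] at htr
  have hg : (gibbs K * V).trace.re = (part K)⁻¹ * (NormedSpace.exp (-K) * V).trace.re := by
    rw [gibbs, Matrix.smul_mul, Matrix.trace_smul, smul_eq_mul, Complex.re_ofReal_mul]
  have hle : part (K + (t : ℂ) • V) ≤
      part K * (1 - t * (gibbs K * V).trace.re + t ^ 2 * ‖V‖ ^ 2) := by
    rw [hg]
    have e : part K * (1 - t * ((part K)⁻¹ * (NormedSpace.exp (-K) * V).trace.re) +
        t ^ 2 * ‖V‖ ^ 2) = part K - t * (NormedSpace.exp (-K) * V).trace.re +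
          (t * ‖V‖) ^ 2 * part K := by
      field_simp
    rw [e]
    have h1 : part (K + (t : ℂ) • V) = (NormedSpace.exp (-(K + (t : ℂ) • V))).trace.re := rfl
    have h2 : part K = (NormedSpace.exp (-K)).trace.re := rfl
    rw [h1]
    rw [← h2] at htr
    linarith
  have hx : 0 < 1 - t * (gibbs K * V).trace.re + t ^ 2 * ‖V‖ ^ 2 := by
    by_contra hneg
    push Not at hneg
    have := mul_nonpos_of_nonneg_of_nonpos hKp.le hneg
    linarith
  calc Real.log (part (K + (t : ℂ) • V))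
      ≤ Real.log (part K * (1 - t * (gibbs K * V).trace.re + t ^ 2 * ‖V‖ ^ 2)) :=
        Real.log_le_log hKVp hle
    _ = Real.log (part K) + Real.log (1 - t * (gibbs K * V).trace.re + t ^ 2 * ‖V‖ ^ 2) :=
        Real.log_mul hKp.ne' hx.ne'
    _ ≤ Real.log (part K) - t * (gibbs K * V).trace.re + t ^ 2 * ‖V‖ ^ 2 := by
        have := Real.log_le_sub_one_of_pos hx
        linarith

/-- Package VA. -/
theorem t_va : StmVA := t_va_of Pool.Agent.N776.TP.gt

end Pool.Agent.U962.MX
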